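import Pool.Agent.MP_5f72fe_nt.H3.SpecA

/-! The admissible coefficient functions are stable under the two operators. -/

namespace Pool.Agent.MP_5f72fe_nt.H28

open Pool.Agent.MP_5f72fe_nt.H3

/-- sign change of the first entry -/
def fA (v : V) : V := (-v.1, v.2.1, v.2.2)

/-- sign change of the last entry -/
def fB (v : V) : V := (v.1, v.2.1, -v.2.2)

/-- linear maps that keep the middle entry modulo `3` -/
structure Lin (g : V → V) : Prop where
  add : ∀ v w, g (v + w) = g v + g w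
  smul : ∀ (l : ℤ) (v : V), g (l • v) = l • g v
  mid : ∀ v : V, 3 ∣ v.2.1 → 3 ∣ (g v).2.1

theorem Lin.comp {g h : V → V} (G : Lin g) (H : Lin h) : Lin fun v => g (h v) where
  add v w := by rw [H.add, G.add]
  smul l v := by rw [H.smul, G.smul]
  mid v hv := G.mid _ (H.mid _ hv)

theorem lin_sg : Lin sg where
  add v w := by ext <;> simp [sg] <;> ring
  smul l v := by ext <;> simp [sg] <;> ring
  mid v hv := Dvd.dvd.add hv (Dvd.intro _ rfl)

theorem lin_sg' : Lin sg' where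
  add v w := by ext <;> simp [sg'] <;> ring
  smul l v := by ext <;> simp [sg'] <;> ring
  mid v hv := Dvd.dvd.sub hv (Dvd.intro _ rfl)

theorem lin_rt : Lin rt where
  add v w := by ext <;> simp [rt]; ring
  smul l v := by ext <;> simp [rt]
  mid v hv := hv

theorem lin_p7 (s : ℤ) : Lin (p7 s) where
  add v w := by ext <;> simp [p7] <;> ring
  smul l v := by ext <;> simp [p7] <;> ring
  mid v hv := Dvd.dvd.add hv ⟨4 * s * v.2.2, by ring⟩

theorem lin_q7 (s : ℤ) : Lin (q7 s) where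
  add v w := by ext <;> simp [q7] <;> ring
  smul l v := by ext <;> simp [q7] <;> ring
  mid v hv := Dvd.dvd.add hv ⟨4 * s * v.1, by ring⟩

theorem sg_sg (v : V) : sg (sg v) = (-2 : ℤ) • sg' v := by ext <;> simp [sg, sg'] <;> ring

theorem sg'_sg (v : V) : sg' (sg v) = (4 : ℤ) • v := by ext <;> simp [sg, sg'] <;> ring

theorem p7_sg (s : ℤ) (v : V) : p7 s (sg v) = sg (p7 s v) := by ext <;> simp [sg, p7] <;> ring

theorem sg_fA (v : V) : sg (fA v) = fA (sg v) := by ext <;> simp [sg, fA]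

theorem sg'_fA (v : V) : sg' (fA v) = fA (sg' v) := by ext <;> simp [sg', fA]

theorem sg_fB (v : V) : sg (fB v) = fB (sg' v) := by ext <;> simp [sg, sg', fB] <;> ring

theorem sg'_fB (v : V) : sg' (fB v) = fB (sg v) := by ext <;> simp [sg, sg', fB] <;> ring

theorem rt_fA (v : V) : rt (fA v) = fB (rt v) := by ext <;> simp [rt, fA, fB]

theorem rt_fB (v : V) : rt (fB v) = fA (rt v) := by ext <;> simp [rt, fA, fB]

theorem p7_fA (s : ℤ) (v : V) : p7 s (fA v) = fA (p7 s v) := by ext <;> simp [p7, fA]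

theorem p7_fB (s : ℤ) (v : V) : p7 s (fB v) = fB (p7 (-s) v) := by
  ext <;> simp [p7, fB] <;> ring

theorem q7_fA (s : ℤ) (v : V) : q7 s (fA v) = fA (q7 (-s) v) := by
  ext <;> simp [q7, fA] <;> ring

theorem q7_fB (s : ℤ) (v : V) : q7 s (fB v) = fB (q7 s v) := by ext <;> simp [q7, fB]

theorem rowSTAB : RowSTAB := by
  intro φ h
  have hA : ∀ v, φ (fA v) = φ v := fun v => h.sgnA v.1 v.2.1 v.2.2
  have hB : ∀ v, φ (fB v) = φ v := fun v => h.sgnB v.1 v.2.1 v.2.2
  obtain ⟨N, hN⟩ := h.per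
  have z : ∀ {g : V → V}, Lin g → ∀ v : V, 3 ∣ v.2.1 → φ (g v) = 0 :=
    fun G v hv => h.zero _ (G.mid v hv)
  have p : ∀ {g : V → V}, Lin g → ∀ v w : V, φ (g (v + (3 ^ N : ℤ) • w)) = φ (g v) :=
    fun G v w => by rw [G.add, G.smul, hN]
  have o : ∀ {g : V → V}, Lin g → ∀ (l : ℤ) (v : V), ¬ 3 ∣ l → φ (g (l • v)) = φ (g v) :=
    fun G l v hl => by rw [G.smul, h.hom l _ hl]
  have r1 := lin_rt.comp lin_sg
  have r2 := lin_rt.comp lin_sg'
  have q1 := fun s => (lin_q7 s).comp lin_sg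
  have q2 := fun s => (lin_q7 s).comp lin_sg'
  constructor
  · refine ⟨fun v hv => ?_, ⟨N, fun v w => ?_⟩, fun l v hl => ?_, fun a y b => ?_,
      fun a y b => ?_, fun v => ?_⟩
    · unfold T2
      rw [z lin_rt v hv, z r1 v hv, z r2 v hv]
      rfl
    · unfold T2
      rw [p lin_rt, p r1, p r2]
    · unfold T2
      rw [o lin_rt l v hl, o r1 l v hl, o r2 l v hl]
    · change T2 φ (fA (a, y, b)) = _
      unfold T2
      rw [sg_fA, sg'_fA, rt_fA, rt_fA, rt_fA, hB, hB, hB]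
    · change T2 φ (fB (a, y, b)) = _
      unfold T2
      rw [sg_fB, sg'_fB, rt_fB, rt_fB, rt_fB, hA, hA, hA]
      ring
    · unfold T2
      rw [sg_sg, sg'_sg, o lin_rt _ _ (by norm_num), o lin_rt _ _ (by norm_num)]
      ring
  · refine ⟨fun v hv => ?_, ⟨N, fun v w => ?_⟩, fun l v hl => ?_, fun a y b => ?_,
      fun a y b => ?_, fun v => ?_⟩
    · unfold T7
      rw [z (lin_p7 1) v hv, z (lin_p7 (-1)) v hv, z (lin_q7 1) v hv, z (lin_q7 (-1)) v hv,
        z (q1 1) v hv, z (q1 (-1)) v hv, z (q2 1) v hv, z (q2 (-1)) v hv]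
      rfl
    · unfold T7
      rw [p (lin_p7 1), p (lin_p7 (-1)), p (lin_q7 1), p (lin_q7 (-1)), p (q1 1), p (q1 (-1)),
        p (q2 1), p (q2 (-1))]
    · unfold T7
      rw [o (lin_p7 1) l v hl, o (lin_p7 (-1)) l v hl, o (lin_q7 1) l v hl,
        o (lin_q7 (-1)) l v hl, o (q1 1) l v hl, o (q1 (-1)) l v hl, o (q2 1) l v hl,
        o (q2 (-1)) l v hl]
    · change T7 φ (fA (a, y, b)) = _
      unfold T7
      simp only [sg_fA, sg'_fA, p7_fA, q7_fA, hA, neg_neg]
      ring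
    · change T7 φ (fB (a, y, b)) = _
      unfold T7
      simp only [sg_fB, sg'_fB, p7_fB, q7_fB, hB, neg_neg]
      ring
    · unfold T7
      rw [sg_sg, sg'_sg, p7_sg, p7_sg, h.rot, h.rot, o (lin_q7 1) _ _ (by norm_num),
        o (lin_q7 1) _ _ (by norm_num), o (lin_q7 (-1)) _ _ (by norm_num),
        o (lin_q7 (-1)) _ _ (by norm_num)]
      ring

end Pool.Agent.MP_5f72fe_nt.H28
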