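import Pool.Agent.MP_5f72fe_nt.H3.SpecA

/-! Basic facts on `E` and `Jh`. -/

namespace Pool.Agent.MP_5f72fe_nt.H28

open Complex Pool.Agent.MP_5f72fe_nt.H3
open scoped Real

theorem half_sq (z : ℂ) : (z ^ (1 / 2 : ℂ)) ^ 2 = z := by
  rw [one_div]
  exact cpow_ofNat_inv_pow z 2

theorem half_eq {z w : ℂ} (hw : 0 < w.re) (h : w ^ 2 = z) : z ^ (1 / 2 : ℂ) = w := by
  rw [one_div, ← h]
  exact sq_cpow_two_inv hw

theorem half_re (z : ℂ) : 0 ≤ (z ^ (1 / 2 : ℂ)).re := by
  by_cases hz : z = 0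
  · subst hz
    rw [zero_cpow (by norm_num)]
    simp
  rw [cpow_def_of_ne_zero hz, exp_re]
  refine mul_nonneg (Real.exp_pos _).le (Real.cos_nonneg_of_mem_Icc ?_)
  have h1 : (log z * (1 / 2)).im = z.arg / 2 := by
    rw [mul_one_div, div_ofNat_im, log_im]
  rw [h1]
  have h2 := neg_pi_lt_arg z
  have h3 := arg_le_pi z
  constructor <;> linarith

theorem jh_sq (τ : ℂ) : Jh τ ^ 2 = -I * τ := half_sq _

theorem jh_cone (τ : ℂ) (h : 0 < τ.im) :
    (Jh τ).im < (Jh τ).re ∧ -(Jh τ).im < (Jh τ).re := by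
  have h0 : 0 ≤ (Jh τ).re := half_re _
  have h1 : (Jh τ ^ 2).re = τ.im := by rw [jh_sq]; simp
  have h2 : (Jh τ ^ 2).re = (Jh τ).re ^ 2 - (Jh τ).im ^ 2 := by
    rw [pow_two, mul_re]; ring
  have h3 : (Jh τ).im ^ 2 < (Jh τ).re ^ 2 := by linarith
  have h4 := abs_lt_of_sq_lt_sq h3 h0
  rw [abs_lt] at h4
  constructor <;> linarith [h4.1, h4.2]

theorem jh_ne (τ : ℂ) (h : 0 < τ.im) : Jh τ ≠ 0 := by
  intro h0
  have := jh_cone τ h
  rw [h0] at this
  simp at this

theorem jh_mul (x y : ℂ) (hx : 0 < x.im) (hy : 0 < y.im) :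
    Jh x * Jh y = (-(x * y)) ^ (1 / 2 : ℂ) := by
  symm
  apply half_eq
  · obtain ⟨a1, a2⟩ := jh_cone x hx
    obtain ⟨b1, b2⟩ := jh_cone y hy
    rw [mul_re]
    nlinarith [mul_pos (sub_pos.2 a1) (sub_pos.2 b2), mul_pos (sub_pos.2 a2) (sub_pos.2 b1)]
  · rw [mul_pow, jh_sq, jh_sq]
    linear_combination (x * y) * I_sq

theorem jh_div (x y : ℂ) (hx : 0 < x.im) (hy : 0 < y.im) :
    Jh x / Jh y = (x / y) ^ (1 / 2 : ℂ) := by
  symm
  apply half_eq
  · obtain ⟨a1, a2⟩ := jh_cone x hx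
    obtain ⟨b1, b2⟩ := jh_cone y hy
    have hn : 0 < normSq (Jh y) := normSq_pos.2 (jh_ne y hy)
    rw [div_re, ← add_div]
    apply div_pos _ hn
    nlinarith [mul_pos (sub_pos.2 a1) (sub_pos.2 b1), mul_pos (sub_pos.2 a2) (sub_pos.2 b2)]
  · rw [div_pow, jh_sq, jh_sq]
    exact mul_div_mul_left _ _ (neg_ne_zero.2 I_ne_zero)

theorem E_add (x y : ℂ) : E (x + y) = E x * E y := by
  unfold E
  rw [← Complex.exp_add, mul_add]

theorem E_real (x : ℝ) : E x = (Real.cos (2 * π * x) : ℝ) + (Real.sin (2 * π * x) : ℝ) * I := by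
  unfold E
  rw [ofReal_cos, ofReal_sin, ← exp_mul_I]
  congr 1
  push_cast
  ring

theorem sqrt_two_sq : ((√2 : ℝ) : ℂ) * (√2 : ℝ) = 2 := by
  rw [← ofReal_mul, Real.mul_self_sqrt (by norm_num)]
  norm_num

theorem sqrt_two_ne : ((√2 : ℝ) : ℂ) ≠ 0 := by
  intro h
  have := sqrt_two_sq
  rw [h] at this
  norm_num at this

theorem E_eighth : E (1 / 8) = (1 + I) / (√2 : ℝ) := by
  have h := E_real (1 / 8)
  rw [show 2 * π * (1 / 8) = π / 4 by ring, Real.cos_pi_div_four, Real.sin_pi_div_four] at h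
  push_cast at h
  rw [h, eq_div_iff sqrt_two_ne]
  linear_combination (1 + I) / 2 * sqrt_two_sq

theorem E_neg_eighth : E (-1 / 8) = (1 - I) / (√2 : ℝ) := by
  have h := E_real (-1 / 8)
  rw [show 2 * π * (-1 / 8) = -(π / 4) by ring, Real.cos_neg, Real.sin_neg, Real.cos_pi_div_four,
    Real.sin_pi_div_four] at h
  push_cast at h
  rw [h, eq_div_iff sqrt_two_ne]
  linear_combination (1 - I) / 2 * sqrt_two_sq

theorem jh_root (τ : ℂ) (h : 0 < τ.im) : τ ^ (1 / 2 : ℂ) = E (1 / 8) * Jh τ ∧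
    (-τ) ^ (1 / 2 : ℂ) = E (-1 / 8) * Jh τ := by
  obtain ⟨a1, a2⟩ := jh_cone τ h
  have h2 : (0 : ℝ) < √2 := by positivity
  constructor
  · apply half_eq
    · rw [E_eighth, div_mul_eq_mul_div, div_ofReal_re]
      apply div_pos _ h2
      simp
      linarith
    · rw [mul_pow, jh_sq, E_eighth, div_pow, pow_two ((√2 : ℝ) : ℂ), sqrt_two_sq]
      linear_combination (-τ - I * τ / 2) * I_sq
  · apply half_eq
    · rw [E_neg_eighth, div_mul_eq_mul_div, div_ofReal_re]
      apply div_pos _ h2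
      simp
      linarith
    · rw [mul_pow, jh_sq, E_neg_eighth, div_pow, pow_two ((√2 : ℝ) : ℂ), sqrt_two_sq]
      linear_combination (τ - I * τ / 2) * I_sq

theorem rowJH : RowJH where
  add := E_add
  int n := by
    unfold E
    rw [mul_comm]
    exact exp_int_mul_two_pi_mul_I n
  ne x := exp_ne_zero _
  norm x := by
    unfold E
    rw [norm_exp]
    congr 1
    simp
  conj x := by
    unfold E
    rw [← exp_conj]
    congr 1
    simp only [map_mul, conj_I, conj_ofReal, map_ofNat]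
    ring
  quarter := by
    refine ⟨?_, ?_, E_eighth, ?_⟩
    · have h := E_real (1 / 4)
      rw [show 2 * π * (1 / 4) = π / 2 by ring, Real.cos_pi_div_two, Real.sin_pi_div_two] at h
      push_cast at h
      rw [h]
      ring
    · have h := E_real (1 / 2)
      rw [show 2 * π * (1 / 2) = π by ring, Real.cos_pi, Real.sin_pi] at h
      push_cast at h
      rw [h]
      ring
    · have h := E_real (1 / 3)
      rw [show 2 * π * (1 / 3) = π - π / 3 by ring, Real.cos_pi_sub, Real.sin_pi_sub,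
        Real.cos_pi_div_three, Real.sin_pi_div_three] at h
      push_cast at h
      rw [h]
      ring
  sq := jh_sq
  jne := jh_ne
  scale t τ ht := by
    unfold Jh
    by_cases hz : -I * τ = 0
    · rw [show -I * (t * τ) = t * (-I * τ) by ring, hz, mul_zero, zero_cpow (by norm_num), mul_zero]
    have ht' : (t : ℂ) ≠ 0 := ofReal_ne_zero.2 ht.ne'
    rw [show -I * (t * τ) = t * (-I * τ) by ring, cpow_def_of_ne_zero (mul_ne_zero ht' hz),
      cpow_def_of_ne_zero hz, log_ofReal_mul ht hz, add_mul, Complex.exp_add, Real.sqrt_eq_rpow,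
      Real.rpow_def_of_pos ht, ofReal_exp]
    push_cast
    rfl
  mul := jh_mul
  div := jh_div
  root := jh_root
  inv τ h := by
    have h0 : τ ≠ 0 := by
      intro h0
      rw [h0] at h
      simp at h
    have h1 : 0 < (-1 / τ).im := by
      have hn : 0 < normSq τ := normSq_pos.2 h0
      rw [div_im]
      simp only [neg_im, one_im, neg_zero, zero_mul, zero_div, neg_re, one_re, neg_mul, one_mul,
        neg_div, zero_sub, neg_neg]
      exact div_pos h hn
    rw [jh_mul τ _ h h1, show -(τ * (-1 / τ)) = 1 by field_simp, one_cpow]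
  cj τ h := by
    have h0 : τ ≠ 0 := by
      intro h0
      rw [h0] at h
      simp at h
    have h1 : 0 < (-(starRingEnd ℂ) τ).im := by simpa using h
    rw [jh_mul τ _ h h1]
    apply half_eq
    · rw [ofReal_re]
      exact norm_pos_iff.2 h0
    · rw [mul_neg, neg_neg, mul_conj, normSq_eq_norm_sq]
      push_cast
      rfl

end Pool.Agent.MP_5f72fe_nt.H28
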