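import Pool.Agent.MP_5f72fe_nt.H3.SpecC

/-! The rows and the columns of the kernel match. -/

namespace Pool.Agent.MP_5f72fe_nt.H28

open Complex Pool.Agent.MP_5f72fe_nt.H3
open scoped Real NumberTheorySymbols

theorem sqrt_rel (N : ℕ) : √((N : ℝ) / 2) * √(2 * π) = √π * √N := by
  rw [← Real.sqrt_mul (by positivity), ← Real.sqrt_mul (by positivity)]
  congr 1
  ring

theorem pw_eq (N t j : ℕ) (hN : 1 ≤ N) (ht : 1 ≤ t) :
    pw (j + 1) (N * t ^ 2) * (√N : ℝ) = N ^ (j + 1) * t ^ (2 * j + 1) := by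
  unfold pw
  have hN' : (0 : ℝ) < N := by exact_mod_cast hN
  have ht' : (0 : ℝ) < t := by exact_mod_cast ht
  have h : (((N * t ^ 2 : ℕ) : ℝ) ^ (((j + 1 : ℕ) : ℝ) - 1 / 2) * √N : ℝ) =
      N ^ (j + 1) * t ^ (2 * j + 1) := by
    push_cast
    rw [Real.mul_rpow hN'.le (by positivity), Real.sqrt_eq_rpow, mul_right_comm,
      ← Real.rpow_add hN', ← Real.rpow_natCast (t : ℝ) 2, ← Real.rpow_mul ht'.le,
      ← Real.rpow_natCast (N : ℝ) (j + 1), ← Real.rpow_natCast (t : ℝ) (2 * j + 1)]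
    congr 2
    · push_cast
      ring
    · push_cast
      ring
  rw [← ofReal_mul, h]
  push_cast
  rfl

theorem cB_eq (N k : ℕ) :
    cB N k = (√π : ℝ) * (√N : ℝ) * 2 / 4 ^ k * (-2 * π * I) ^ k := by
  unfold cB
  rw [show √((N : ℝ) / 2) * 2 / 4 ^ k * (2 * π) ^ k * √(2 * π) =
    √((N : ℝ) / 2) * √(2 * π) * 2 / 4 ^ k * (2 * π) ^ k by ring, sqrt_rel,
    show (-2 * π * I : ℂ) = 2 * π * (-I) by ring, mul_pow (2 * π : ℂ)]
  push_cast
  ring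

theorem rowMATCH : OfMATCH := by
  intro _ L N k m n hN hk
  obtain ⟨j, rfl⟩ : ∃ j, k = j + 1 := ⟨k - 1, by omega⟩
  have hpi : (π : ℂ) ≠ 0 := ofReal_ne_zero.2 Real.pi_ne_zero
  have hc : (-2 * π * I : ℂ) ≠ 0 := mul_ne_zero (mul_ne_zero (by norm_num) hpi) I_ne_zero
  have hsp : ((√π : ℝ) : ℂ) ≠ 0 := ofReal_ne_zero.2 (Real.sqrt_pos.2 Real.pi_pos).ne'
  have hN' : (0 : ℝ) < N := by exact_mod_cast hN
  have hsN : ((√N : ℝ) : ℂ) ≠ 0 := ofReal_ne_zero.2 (Real.sqrt_pos.2 hN').ne'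
  have hNc : (N : ℂ) ≠ 0 := Nat.cast_ne_zero.2 (by omega)
  have hf : ((j.factorial : ℕ) : ℂ) ≠ 0 := Nat.cast_ne_zero.2 j.factorial_ne_zero
  have h4 : (4 : ℂ) ^ (j + 1) ≠ 0 := pow_ne_zero _ (by norm_num)
  refine ⟨?_, ?_, ?_⟩
  · unfold cA
    rw [Nat.add_sub_cancel]
    exact div_ne_zero (div_ne_zero (mul_ne_zero (mul_ne_zero (pow_ne_zero _ hc) hsp) two_ne_zero)
      h4) hf
  · rw [cB_eq]
    exact mul_ne_zero (div_ne_zero (mul_ne_zero (mul_ne_zero hsp hsN) two_ne_zero) h4)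
      (pow_ne_zero _ hc)
  have key : pw (j + 1) n * cB N (j + 1) * (cL (j + 1 : ℕ) / N ^ (j + 1)) *
      (∑ δ ∈ m.divisors, if n = N * (m / δ) ^ 2 then (J(δ | N) : ℂ) * δ ^ (j + 1 - 1) else 0) =
      m ^ (2 * (j + 1) - 1) * cA (j + 1) *
      (∑ δ ∈ m.divisors, if n = N * (m / δ) ^ 2 then (J(δ | N) : ℂ) / δ ^ (j + 1) else 0) := by
    rw [Finset.mul_sum, Finset.mul_sum]
    refine Finset.sum_congr rfl fun δ hδ => ?_
    split_ifs with h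
    · obtain ⟨⟨t, rfl⟩, hm⟩ := Nat.mem_divisors.1 hδ
      have hδ0 : δ ≠ 0 := left_ne_zero_of_mul hm
      have ht0 : t ≠ 0 := right_ne_zero_of_mul hm
      rw [Nat.mul_div_cancel_left _ (Nat.pos_of_ne_zero hδ0)] at h
      have hp := pw_eq N t j hN (Nat.pos_of_ne_zero ht0)
      have hδc : (δ : ℂ) ≠ 0 := Nat.cast_ne_zero.2 hδ0
      rw [← h] at hp
      rw [L.nat j, cB_eq, cA, Nat.add_sub_cancel, show 2 * (j + 1) - 1 = 2 * j + 1 by omega,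
        eq_div_of_mul_eq hsN hp, two_mul (j + 1), pow_add (-2 * π * I : ℂ) (j + 1) (j + 1)]
      generalize (-2 * π * I : ℂ) ^ (j + 1) = c
      push_cast
      field_simp
      ring
    · simp
  unfold Acol Brow
  linear_combination 2 * GS N * key

end Pool.Agent.MP_5f72fe_nt.H28
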